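import Pool.Agent.W845.GL.Stm

set_option autoImplicit false

namespace Pool.Agent.W359.GL.BP

open Pool.Agent.W845.GL

theorem bp : S_DB → S_SEP → S_BP := by
  intro hDB hSEP J ε hε
  obtain ⟨γ, hγ, hsep⟩ := hSEP J
  let A : Set ℝ := {s | ∃ (i : ℕ) (hi : J < i) (x : Fin i → Bool), x ⟨J, hi⟩ = true ∧ DD i x = s}
  have hA : A.Nonempty := ⟨_, J + 1, Nat.lt_succ_self J, fun _ => true, rfl, rfl⟩
  let β : ℝ → ℝ := fun s => 1 - (2 / γ) * min γ (Metric.infDist s A)
  have hβ : Continuous β :=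
    continuous_const.sub (continuous_const.mul (continuous_const.min (Metric.continuous_infDist_pt A)))
  obtain ⟨P, hP⟩ := exists_polynomial_near_of_continuousOn (1 / 2) 2 β hβ.continuousOn ε hε
  refine ⟨P, fun i hi x => ?_⟩
  have h1 := hP (DD i x) (Set.mem_Icc.mpr (hDB i x))
  have h2 : β (DD i x) = sg (x ⟨J, hi⟩) := by
    change 1 - (2 / γ) * min γ (Metric.infDist (DD i x) A) = _
    cases hx : x ⟨J, hi⟩ with
    | true =>
      have h3 : Metric.infDist (DD i x) A = 0 :=
        Metric.infDist_zero_of_mem ⟨i, hi, x, hx, rfl⟩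
      rw [h3, min_eq_right hγ.le]
      simp [sg]
    | false =>
      have h3 : γ ≤ Metric.infDist (DD i x) A := by
        rw [Metric.le_infDist hA]
        rintro _ ⟨i', hi', x', hx', rfl⟩
        rw [dist_comm, Real.dist_eq]
        exact hsep i' hi' x' i hi x hx' hx
      rw [min_eq_left h3, div_mul_cancel₀ _ hγ.ne']
      norm_num [sg]
  rw [← h2]
  exact h1.le

end Pool.Agent.W359.GL.BP
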