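import Pool.Agent.W845.GL.Stm

/-!
# GL-R4: second moment bound (helper359)
-/

set_option autoImplicit false

namespace Pool.Agent.W359.GL.R4

open Filter MeasureTheory Finset
open scoped Classical Topology
open Pool.Agent.W845.GL

noncomputable section

theorem wt_nonneg {X : Type} (W : X → X → ℝ) (hW : ∀ x y, 0 ≤ W x y ∧ W x y ≤ 1) {n : ℕ}
    (x : Fin n → X) (e : Fin n × Fin n → Bool) : 0 ≤ wt W x e := by
  unfold wt
  refine Finset.prod_nonneg fun q _ => ?_
  split_ifs
  · exact (hW _ _).1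
  · have := (hW (x q.1) (x q.2)).2
    linarith

theorem EX_sum {X : Type} [Fintype X] (W : X → X → ℝ) {n : ℕ} {ι : Type} (s : Finset ι)
    (Φ : ι → (Fin n × Fin n → Bool) → ℝ) :
    EX W (fun e => ∑ i ∈ s, Φ i e) = ∑ i ∈ s, EX W (Φ i) := by
  unfold EX
  rw [← Finset.sum_div]
  congr 1
  conv_rhs => rw [Finset.sum_comm]
  refine Finset.sum_congr rfl fun x _ => ?_
  conv_rhs => rw [Finset.sum_comm]
  refine Finset.sum_congr rfl fun e _ => ?_
  rw [Finset.mul_sum]

theorem EX_add {X : Type} [Fintype X] (W : X → X → ℝ) {n : ℕ}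
    (Φ Ψ : (Fin n × Fin n → Bool) → ℝ) :
    EX W (fun e => Φ e + Ψ e) = EX W Φ + EX W Ψ := by
  unfold EX
  rw [← add_div, ← Finset.sum_add_distrib]
  congr 1
  refine Finset.sum_congr rfl fun x _ => ?_
  rw [← Finset.sum_add_distrib]
  refine Finset.sum_congr rfl fun e _ => ?_
  ring

theorem EX_mul {X : Type} [Fintype X] (W : X → X → ℝ) {n : ℕ} (c : ℝ)
    (Φ : (Fin n × Fin n → Bool) → ℝ) :
    EX W (fun e => c * Φ e) = c * EX W Φ := by
  unfold EX
  rw [← mul_div_assoc, Finset.mul_sum]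
  congr 1
  refine Finset.sum_congr rfl fun x _ => ?_
  rw [Finset.mul_sum]
  refine Finset.sum_congr rfl fun e _ => ?_
  ring

theorem EX_mono {X : Type} [Fintype X] (W : X → X → ℝ) (hW : ∀ x y, 0 ≤ W x y ∧ W x y ≤ 1)
    {n : ℕ} (Φ Ψ : (Fin n × Fin n → Bool) → ℝ) (h : ∀ e, Φ e ≤ Ψ e) : EX W Φ ≤ EX W Ψ := by
  unfold EX
  refine div_le_div_of_nonneg_right ?_ (by positivity)
  exact Finset.sum_le_sum fun x _ => Finset.sum_le_sum fun e _ =>
    mul_le_mul_of_nonneg_left (h e) (wt_nonneg W hW x e)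

theorem EX_one (h0 : S_R0) {X : Type} [Fintype X] [Nonempty X] (W : X → X → ℝ) (n : ℕ) :
    EX W (fun _ : Fin n × Fin n → Bool => (1 : ℝ)) = 1 := by
  unfold EX
  have h1 : ∀ x : Fin n → X, ∑ e : Fin n × Fin n → Bool, wt W x e * 1 = 1 := by
    intro x
    have := h0 X W n x ∅
    simpa using this
  rw [Finset.sum_congr rfl fun x _ => h1 x, Finset.sum_const, nsmul_eq_mul, mul_one,
    Finset.card_univ, Fintype.card_fun, Fintype.card_fin]
  push_cast
  refine div_self (pow_ne_zero _ ?_)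
  exact_mod_cast Fintype.card_ne_zero

theorem ind_mem {k n : ℕ} (F : SimpleGraph (Fin k)) (φ : Fin k → Fin n)
    (e : Fin n × Fin n → Bool) : 0 ≤ ind F φ e ∧ ind F φ e ≤ 1 := by
  unfold ind
  refine ⟨Finset.prod_nonneg fun a _ => ?_, Finset.prod_le_one (fun a _ => ?_) fun a _ => ?_⟩
  all_goals split_ifs <;> norm_num

theorem r4 : S_R0 → S_R1 → S_R2 → S_R3 → S_R4 := by
  intro h0 h1 h2 h3 X _ _ W hs hW n k F hn hk
  obtain ⟨h3a, h3b, h3c⟩ := h3
  set N : ℝ := (n.descFactorial k : ℝ) with hN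
  have hN0 : 0 < N := by
    rw [hN]
    exact_mod_cast Nat.descFactorial_pos.2 hk
  set t := tW W F with ht
  have e1 : ∀ e : Fin n × Fin n → Bool, ((nemb F (GE e) : ℝ) / N - t) ^ 2 =
      (1 / N ^ 2) * ∑ z : (Fin k ↪ Fin n) × (Fin k ↪ Fin n),
        (ind F z.1 e - t) * (ind F z.2 e - t) := by
    intro e
    have e2 : ∑ φ : Fin k ↪ Fin n, (ind F φ e - t) = nemb F (GE e) - N * t := by
      rw [Finset.sum_sub_distrib, ← h3c, Finset.sum_const, nsmul_eq_mul, h3a]
    have e3 : ∑ z : (Fin k ↪ Fin n) × (Fin k ↪ Fin n),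
        (ind F z.1 e - t) * (ind F z.2 e - t) = (nemb F (GE e) - N * t) ^ 2 := by
      rw [Fintype.sum_prod_type, sq, ← e2, Finset.sum_mul_sum]
    rw [e3]
    field_simp
  have e4 : EX W (fun e : Fin n × Fin n → Bool => ((nemb F (GE e) : ℝ) / N - t) ^ 2) =
      (1 / N ^ 2) * ∑ z : (Fin k ↪ Fin n) × (Fin k ↪ Fin n),
        EX W (fun e : Fin n × Fin n → Bool => (ind F z.1 e - t) * (ind F z.2 e - t)) := by
    rw [funext e1, EX_mul, EX_sum]
  rw [e4]
  have hone := EX_one h0 W n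
  have hterm : ∀ z : (Fin k ↪ Fin n) × (Fin k ↪ Fin n),
      EX W (fun e : Fin n × Fin n → Bool => (ind F z.1 e - t) * (ind F z.2 e - t)) ≤
        if ∃ u v, z.1 u = z.2 v then (1 : ℝ) else 0 := by
    intro z
    have a1 := h1 X W hs n k F z.1 z.1.injective
    have a2 := h1 X W hs n k F z.2 z.2.injective
    have t0 : 0 ≤ t := by
      rw [ht, ← a1]
      have := EX_mono W hW (fun e => 0 * (1 : ℝ)) (ind F z.1) (fun e => by
        rw [zero_mul]; exact (ind_mem F z.1 e).1)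
      rw [EX_mul, zero_mul] at this
      exact this
    have t1 : t ≤ 1 := by
      rw [ht, ← a1]
      have := EX_mono W hW (ind F z.1) (fun e => (1 : ℝ)) (fun e => (ind_mem F z.1 e).2)
      rw [hone] at this
      exact this
    split_ifs with hz
    · rw [← hone]
      refine EX_mono W hW _ _ fun e => ?_
      have b1 := ind_mem F z.1 e
      have b2 := ind_mem F z.2 e
      have c1 : |ind F z.1 e - t| ≤ 1 := abs_le.2 ⟨by linarith, by linarith⟩
      have c2 : |ind F z.2 e - t| ≤ 1 := abs_le.2 ⟨by linarith, by linarith⟩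
      calc (ind F z.1 e - t) * (ind F z.2 e - t) ≤ |(ind F z.1 e - t) * (ind F z.2 e - t)| :=
            le_abs_self _
        _ = |ind F z.1 e - t| * |ind F z.2 e - t| := abs_mul _ _
        _ ≤ 1 * 1 := mul_le_mul c1 c2 (abs_nonneg _) zero_le_one
        _ = 1 := one_mul _
    · have a3 := h2 X W hs n k F z.1 z.2 z.1.injective z.2.injective
        (fun u v h => hz ⟨u, v, h⟩)
      have e5 : (fun e : Fin n × Fin n → Bool => (ind F z.1 e - t) * (ind F z.2 e - t)) =
          fun e => (ind F z.1 e * ind F z.2 e + (-t) * ind F z.1 e) +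
            ((-t) * ind F z.2 e + t ^ 2 * (1 : ℝ)) := by
        funext e; ring
      rw [e5, EX_add, EX_add, EX_add, EX_mul, EX_mul, EX_mul, a3, hone]
      have a1' : EX W (fun e : Fin n × Fin n → Bool => ind F z.1 e) = t := a1
      have a2' : EX W (fun e : Fin n × Fin n → Bool => ind F z.2 e) = t := a2
      rw [a1', a2']
      apply le_of_eq
      ring
  have hsum : ∑ z : (Fin k ↪ Fin n) × (Fin k ↪ Fin n),
      EX W (fun e : Fin n × Fin n → Bool => (ind F z.1 e - t) * (ind F z.2 e - t)) ≤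
      (((Finset.univ : Finset ((Fin k ↪ Fin n) × (Fin k ↪ Fin n))).filter
      (fun z => ∃ u v, z.1 u = z.2 v)).card : ℝ) := by
    refine (Finset.sum_le_sum fun z _ => hterm z).trans (le_of_eq ?_)
    rw [← Finset.sum_filter, Finset.sum_const, nsmul_eq_mul, mul_one]
  have hb := h3b n k
  have hn0 : (0 : ℝ) < n := by exact_mod_cast hn
  calc (1 / N ^ 2) * ∑ z : (Fin k ↪ Fin n) × (Fin k ↪ Fin n),
      EX W (fun e : Fin n × Fin n → Bool => (ind F z.1 e - t) * (ind F z.2 e - t))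
      ≤ (1 / N ^ 2) * (((Finset.univ : Finset ((Fin k ↪ Fin n) × (Fin k ↪ Fin n))).filter
      (fun z => ∃ u v, z.1 u = z.2 v)).card : ℝ) :=
        mul_le_mul_of_nonneg_left hsum (by positivity)
    _ ≤ (k : ℝ) ^ 2 / (n : ℝ) := by
        rw [div_mul_eq_mul_div, one_mul, div_le_div_iff₀ (by positivity) hn0]
        linarith

end

end Pool.Agent.W359.GL.R4
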